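import Pool.Agent.Work.MP_db9399_da.Parts
import Pool.Agent.Work.MP_db9399_qr.PART

/-!
# MP_db9399, DENSE-ALL: block LBH, Chernoff in the block model (helper74)
-/

set_option autoImplicit false

namespace Pool.Agent.Work.MP_db9399_da.helper74

open Finset Classical
open Pool.Agent.Work.MP_db9399_all (nb pr)
open Pool.Agent.Work.MP_db9399_qr.PARTAux (chern pr_le_add)
open Pool.Agent.Work.MP_db9399_da

universe u

theorem cnt60 (r p i : ℕ) (hr : 1 ≤ r) (hr6 : r ≤ 6) (hp : p < r) (hi : i < r) :
    (univ.filter (fun c : Fin 60 => (p + (c : ℕ)) % r = i)).card * r = 60 := by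
  interval_cases r <;> interval_cases p <;> interval_cases i <;> decide

/-- two labels of one block are different -/
theorem lab_inj {r p q c : ℕ} (hp : p < r) (hq : q < r) (h : (p + c) % r = (q + c) % r) :
    p = q := by
  have h1 : p % r = q % r := Nat.ModEq.add_right_cancel' c h
  rwa [Nat.mod_eq_of_lt hp, Nat.mod_eq_of_lt hq] at h1

theorem stmt_LBH : Stmt_LBH.{u} := by
  intro V _ J nd r T w W blk pos Fx A j i x hr hB hi hx hne
  set N : Finset V := A ∩ nodeS nd j with hN
  set B : Finset V := N.filter (fun v => ¬ Fx v) with hBd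
  set F : Finset V := N.filter (fun v => Fx v) with hF
  have hNnd : ∀ v ∈ N, nd v = j := fun v hv => by
    have := (Finset.mem_inter.1 hv).2
    exact (Finset.mem_filter.1 this).2
  have hr1 : 1 ≤ r j := (hr j).1
  have hr6 : r j ≤ 6 := (hr j).2
  have hrR : (0 : ℝ) < r j := by exact_mod_cast hr1
  -- few fixed vertices
  have hFc : F.card ≤ 6 := by
    have h1 : (F.image pos).card = F.card := by
      refine Finset.card_image_of_injOn ?_
      intro v hv v' hv' h
      have hv1 := Finset.mem_filter.1 hv
      have hv2 := Finset.mem_filter.1 hv'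
      refine hB.inj v v' (hB.fx1 v v' hv1.2 hv2.2 ?_) h
      rw [hNnd v hv1.1, hNnd v' hv2.1]
    have h2 : F.image pos ⊆ range (r j) := by
      intro a ha
      obtain ⟨v, hv, rfl⟩ := Finset.mem_image.1 ha
      have hv1 := Finset.mem_filter.1 hv
      have := hB.pl v
      rw [hNnd v hv1.1] at this
      exact Finset.mem_range.2 this
    have h3 := Finset.card_le_card h2
    rw [h1, Finset.card_range] at h3
    omega
  -- the indicator functions
  set X : V → Fin 60 → ℝ := fun y c =>
    ∑ v ∈ B.filter (fun v => blk v = y), if (pos v + (c : ℕ)) % r j = i then (1 : ℝ) else 0 with hX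
  have hX01 : ∀ y c, X y c = 0 ∨ X y c = 1 := by
    intro y c
    have h1 : X y c = (((B.filter (fun v => blk v = y)).filter
        (fun v => (pos v + (c : ℕ)) % r j = i)).card : ℝ) := by
      rw [hX, Finset.card_filter]
      push_cast
      rfl
    have h2 : ((B.filter (fun v => blk v = y)).filter
        (fun v => (pos v + (c : ℕ)) % r j = i)).card ≤ 1 := by
      rw [Finset.card_le_one]
      intro v hv v' hv'
      rw [Finset.mem_filter, Finset.mem_filter, Finset.mem_filter] at hv hv'
      have hp := hB.pl v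
      have hp' := hB.pl v'
      rw [hNnd v hv.1.1.1] at hp
      rw [hNnd v' hv'.1.1.1] at hp'
      exact hB.inj v v' (hv.1.2.trans hv'.1.2.symm) (lab_inj hp hp' (hv.2.trans hv'.2.symm))
    rw [h1]
    interval_cases ((B.filter (fun v => blk v = y)).filter
        (fun v => (pos v + (c : ℕ)) % r j = i)).card
    · left; norm_num
    · right; norm_num
  have hsum : ∀ ω : V → Fin 60, ∑ y, X y (ω y) =
      ∑ v ∈ B, if (pos v + (ω (blk v) : ℕ)) % r j = i then (1 : ℝ) else 0 := by
    intro ω
    rw [← Finset.sum_fiberwise_of_maps_to (s := B) (t := univ) (g := blk)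
      (fun v _ => Finset.mem_univ _)]
    refine Finset.sum_congr rfl fun y _ => ?_
    refine Finset.sum_congr rfl fun v hv => ?_
    rw [(Finset.mem_filter.1 hv).2]
  have hS : ∑ y, ∑ c, X y c = ((B.card : ℝ) / r j) * (60 : ℕ) := by
    have h1 : ∀ y, ∑ c, X y c = ∑ v ∈ B.filter (fun v => blk v = y), (60 : ℝ) / r j := by
      intro y
      simp only [hX]
      rw [Finset.sum_comm]
      refine Finset.sum_congr rfl fun v hv => ?_
      have hv1 := (Finset.mem_filter.1 hv).1
      have hv2 := (Finset.mem_filter.1 hv1).1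
      have hp := hB.pl v
      rw [hNnd v hv2] at hp
      have h2 := cnt60 (r j) (pos v) i hr1 hr6 hp hi
      rw [← Finset.sum_filter, Finset.sum_const, nsmul_eq_mul, mul_one, eq_div_iff hrR.ne']
      exact_mod_cast h2
    simp_rw [h1]
    rw [Finset.sum_fiberwise_of_maps_to (s := B) (t := univ) (g := blk)
      (fun v _ => Finset.mem_univ _), Finset.sum_const, nsmul_eq_mul]
    push_cast
    ring
  -- the number of vertices
  have hcnt : ∀ ω : V → Fin 60, ((A ∩ clS nd (lb nd r blk pos Fx ω) j i).card : ℝ) =
      ((F.filter (fun v => pos v = i)).card : ℝ) + ∑ y, X y (ω y) := by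
    intro ω
    rw [hsum ω]
    have h1 : A ∩ clS nd (lb nd r blk pos Fx ω) j i =
        (F.filter (fun v => pos v = i)) ∪
          (B.filter (fun v => (pos v + (ω (blk v) : ℕ)) % r j = i)) := by
      ext v
      simp only [hF, hBd, hN, clS, nodeS, Finset.mem_inter, Finset.mem_filter, Finset.mem_univ,
        true_and, Finset.mem_union]
      constructor
      · rintro ⟨hA, hj, hl⟩
        unfold lb at hl
        by_cases hf : Fx v
        · rw [if_pos hf] at hl
          exact Or.inl ⟨⟨⟨hA, hj⟩, hf⟩, hl⟩
        · rw [if_neg hf, hj] at hl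
          exact Or.inr ⟨⟨⟨hA, hj⟩, hf⟩, hl⟩
      · rintro (⟨⟨⟨hA, hj⟩, hf⟩, hl⟩ | ⟨⟨⟨hA, hj⟩, hf⟩, hl⟩)
        · refine ⟨hA, hj, ?_⟩
          unfold lb
          rw [if_pos hf]
          exact hl
        · refine ⟨hA, hj, ?_⟩
          unfold lb
          rw [if_neg hf, hj]
          exact hl
    rw [h1, Finset.card_union_of_disjoint]
    · push_cast
      congr 1
      rw [Finset.card_filter]
      push_cast
      rfl
    · rw [Finset.disjoint_left]
      intro v hv hv'
      exact (Finset.mem_filter.1 (Finset.mem_filter.1 hv').1).2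
        (Finset.mem_filter.1 (Finset.mem_filter.1 hv).1).2
  have hFB : F.card + B.card = N.card := by
    rw [hF, hBd]
    exact Finset.card_filter_add_card_filter_not _
  have hNpos : (0 : ℝ) < N.card := by exact_mod_cast Finset.card_pos.2 hne
  set S : ℝ := (B.card : ℝ) / r j with hSd
  have hSN : S ≤ N.card := by
    rw [hSd, div_le_iff₀ hrR]
    have h1 : (B.card : ℝ) ≤ N.card := by exact_mod_cast (by omega : B.card ≤ N.card)
    have h2 : (1 : ℝ) ≤ r j := by exact_mod_cast hr1
    nlinarith
  have hS0 : 0 ≤ S := by positivity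
  by_cases hxN : x ≤ 2 * N.card
  · set l : ℝ := x / (2 * N.card) with hl
    have hl0 : 0 ≤ l := by positivity
    have hl1 : l ≤ 1 := by
      rw [hl, div_le_one (by positivity)]
      exact hxN
    have hlx : S * l ^ 2 - l * x ≤ -(x ^ 2 / (4 * N.card)) := by
      have h1 : S * l ^ 2 ≤ N.card * l ^ 2 := mul_le_mul_of_nonneg_right hSN (sq_nonneg _)
      have h2 : (N.card : ℝ) * l ^ 2 - l * x = -(x ^ 2 / (4 * N.card)) := by
        rw [hl]
        field_simp
        ring
      linarith
    have e1 := chern (J := V) (M := 60) (by norm_num) univ X hX01 S hS l (S + x)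
      (by rw [abs_of_nonneg hl0]; exact hl1)
    have e2 := chern (J := V) (M := 60) (by norm_num) univ X hX01 S hS (-l) (S - x)
      (by rw [abs_neg, abs_of_nonneg hl0]; exact hl1)
    have e1' : Real.exp (S * (l + l ^ 2) - l * (S + x)) ≤ Real.exp (-(x ^ 2 / (4 * N.card))) := by
      refine Real.exp_le_exp.2 ?_
      nlinarith
    have e2' : Real.exp (S * (-l + (-l) ^ 2) - (-l) * (S - x)) ≤
        Real.exp (-(x ^ 2 / (4 * N.card))) := by
      refine Real.exp_le_exp.2 ?_
      nlinarith
    have h3 : pr (fun ω : V → Fin 60 => x + 6 < |((A ∩ clS nd (lb nd r blk pos Fx ω) j i).card : ℝ)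
        - (N.card : ℝ) / r j|) ≤
        pr (fun ω : V → Fin 60 => l * (S + x) ≤ l * ∑ y, X y (ω y)) +
        pr (fun ω : V → Fin 60 => -l * (S - x) ≤ -l * ∑ y, X y (ω y)) := by
      refine pr_le_add fun ω hω => ?_
      rw [hcnt ω] at hω
      have h4 : (N.card : ℝ) / r j = S + (F.card : ℝ) / r j := by
        rw [hSd, ← hFB]
        push_cast
        ring
      rw [h4] at hω
      have h5 : ((F.filter (fun v => pos v = i)).card : ℝ) ≤ 6 := by
        exact_mod_cast (Finset.card_filter_le _ _).trans hFc
      have h6 : (0 : ℝ) ≤ ((F.filter (fun v => pos v = i)).card : ℝ) := by positivity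
      have h7 : (F.card : ℝ) / r j ≤ 6 := by
        rw [div_le_iff₀ hrR]
        have h8 : (F.card : ℝ) ≤ 6 := by exact_mod_cast hFc
        have h9 : (1 : ℝ) ≤ r j := by exact_mod_cast hr1
        nlinarith
      have h8 : 0 ≤ (F.card : ℝ) / r j := by positivity
      rcases lt_abs.1 hω with h | h
      · left
        refine mul_le_mul_of_nonneg_left ?_ hl0
        linarith
      · right
        have : ∑ y, X y (ω y) ≤ S - x := by linarith
        nlinarith
    calc _ ≤ _ := h3
      _ ≤ Real.exp (-(x ^ 2 / (4 * N.card))) + Real.exp (-(x ^ 2 / (4 * N.card))) :=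
        add_le_add (e1.trans e1') (e2.trans e2')
      _ = _ := by ring
  · rw [not_le] at hxN
    have h1 : pr (fun ω : V → Fin 60 => x + 6 < |((A ∩ clS nd (lb nd r blk pos Fx ω) j i).card : ℝ)
        - (N.card : ℝ) / r j|) = 0 := by
      unfold pr
      have : (univ.filter (fun ω : V → Fin 60 => x + 6 <
          |((A ∩ clS nd (lb nd r blk pos Fx ω) j i).card : ℝ) - (N.card : ℝ) / r j|)) = ∅ := by
        refine Finset.filter_eq_empty_iff.2 fun ω _ => ?_
        rw [not_lt, abs_le]
        have h2 : ((A ∩ clS nd (lb nd r blk pos Fx ω) j i).card : ℝ) ≤ N.card := by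
          have : A ∩ clS nd (lb nd r blk pos Fx ω) j i ⊆ N := by
            intro v hv
            rw [Finset.mem_inter] at hv
            rw [hN, Finset.mem_inter]
            refine ⟨hv.1, ?_⟩
            unfold clS at hv
            unfold nodeS
            rw [Finset.mem_filter] at hv ⊢
            exact ⟨Finset.mem_univ _, hv.2.2.1⟩
          exact_mod_cast Finset.card_le_card this
        have h3 : (0 : ℝ) ≤ ((A ∩ clS nd (lb nd r blk pos Fx ω) j i).card : ℝ) := by positivity
        have h4 : (N.card : ℝ) / r j ≤ N.card := by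
          rw [div_le_iff₀ hrR]
          have h9 : (1 : ℝ) ≤ r j := by exact_mod_cast hr1
          nlinarith
        have h5 : 0 ≤ (N.card : ℝ) / r j := by positivity
        constructor <;> linarith
      rw [this]
      simp
    rw [h1]
    positivity

end Pool.Agent.Work.MP_db9399_da.helper74
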