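import Pool.Agent.Work.MP_db9399_da.Pre2

/-! MP_db9399, DENSE-ALL, phase 2, block PAR (helper74): from PAR1 by induction over the pieces. -/

set_option autoImplicit false

namespace Pool.Agent.Work.MP_db9399_da.helper74

open Finset Classical
open Pool.Agent.Work.MP_db9399_all (nb)
open Pool.Agent.Work.MP_db9399_lt (us)

universe u

/-- `gP` with a witness among the colours which are not touched any more -/
def gPs {V : Type u} {M : ℕ} [Fintype V] (ζ : ℝ) (G : SimpleGraph V) (d : ℕ) (P : Pcs V M)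
    (X : HD V) (Ss : Finset ℕ) (c : V → ℕ) (t : V → V → ℕ) (Bd U : Finset ℕ) (n : Fin M) : Prop :=
  P.ty n = Ty.K → (∀ v w, v ≠ w → (bk2 G X P n).Adj v w) → (∀ v ∈ pV P n, v ∉ X.VH) →
    2 ≤ (Ss.filter (fun b => (((pV P n).filter (fun v => b ∉ X.nm v)).card : ℝ) <
      ζ / 4 * d)).card →
    ∃ b, b < d + 2 ∧ b ∉ Ss ∧ b ∈ Sp2 P X c ∪ Bd ∪ U ∧
      Odd (Fintype.card (Ts P n) - (us (Fn2 G X P t n) b).card)

theorem stmt_PAR (h1 : Stmt_PAR1.{u}) : Stmt_PAR.{u} := by
  intro C g ρ K π κ ε ε2 σ τ ζ θ M k k2 K5 L V _ G d P A X Ss t0 c Sp hcx Bd s t U hst hBd hs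
    hS hH hO
  have hML : M ≤ L := hcx.nu.ML
  have key : ∀ j, j ≤ M → ∃ (t' : V → V → ℕ) (Bd' : Finset ℕ) (s' : ℕ), s' ≤ s + j ∧
      Bd'.card ≤ Bd.card + 2 * j ∧
        PSt τ ζ G d P A X Ss t0 c Bd' s' t' U ∧ gS G X t' ∧ gH G P X t' ∧ gO G P X t' ∧
        ∀ n : Fin M, n.val < j → gPs ζ G d P X Ss c t' Bd' U n := by
    intro j
    induction j with
    | zero =>
      intro _
      exact ⟨t, Bd, s, by omega, by omega, hst, hS, hH, hO, fun n hn => absurd hn (by omega)⟩
    | succ j ih =>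
      intro hj
      obtain ⟨t1, Bd1, s1, hs1, hB1, hst1, hS1, hH1, hO1, hg1⟩ := ih (by omega)
      obtain ⟨t2, Bd2, s2, hs2, hBB, hB2, hst2, hS2, hH2, hO2, hun, hw⟩ :=
        h1 C g ρ K π κ ε ε2 σ τ ζ θ M k k2 K5 L G d P A X Ss t0 c Sp hcx Bd1 s1 t1 U
          (⟨j, by omega⟩ : Fin M) hst1 (by omega) (by omega) hS1 hH1 hO1
      refine ⟨t2, Bd2, s2, by omega, by omega, hst2, hS2, hH2, hO2, ?_⟩
      intro n hn
      by_cases hnj : n.val = j
      · have : n = (⟨j, by omega⟩ : Fin M) := Fin.ext hnj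
        rw [this]
        exact hw
      · intro a1 a2 a3 a4
        obtain ⟨b, hb1, hb2, hb3, hb4⟩ := hg1 n (by omega) a1 a2 a3 a4
        refine ⟨b, hb1, hb2, ?_, ?_⟩
        · simp only [Finset.mem_union] at hb3 ⊢
          rcases hb3 with (h | h) | h
          · exact Or.inl (Or.inl h)
          · exact Or.inl (Or.inr (hBB h))
          · exact Or.inr h
        · have hus : us (Fn2 G X P t2 n) b = us (Fn2 G X P t1 n) b := by
            unfold us
            ext v
            have hb' : b ∈ Ss ∪ Sp2 P X c ∪ Bd1 ∪ U := by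
              simp only [Finset.mem_union] at hb3 ⊢
              tauto
            have := hun b hb' v.1 v.2.1
            simp only [Finset.mem_filter, Finset.mem_univ, true_and]
            exact this
          rw [hus]
          exact hb4
  obtain ⟨t', Bd', s', hs', hB', hst', hS', hH', hO', hg⟩ := key M le_rfl
  refine ⟨t', Bd', s', hs', hB', hst', hS', hH', hO', ?_⟩
  intro n a1 a2 a3 a4
  obtain ⟨b, hb1, hb2, _, hb4⟩ := hg n n.2 a1 a2 a3 a4
  exact ⟨b, hb1, hb2, hb4⟩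

end Pool.Agent.Work.MP_db9399_da.helper74
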